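import Pool.Agent.Helper12.GM.LibF

/-!
# The band `|Re z| ≤ κ Im z` is a finite union of orbits of `c`, which acts freely
-/

open scoped ENNReal UpperHalfPlane MatrixGroups Topology
open UpperHalfPlane Real Filter

namespace Pool.Agent.Helper12.GM

theorem forb_dist (z : ℍ) (A B : ℝ) (h1 : 1 ≤ z.im) (h2 : z.im ≤ A) (h3 : |z.re| ≤ B) :
    dist (I : ℍ) z ≤ 1 + (B ^ 2 + A ^ 2) / 2 := by
  have hc := UpperHalfPlane.cosh_dist (I : ℍ) z
  have hd0 : 0 ≤ dist (I : ℍ) z := dist_nonneg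
  have hs1 : dist (I : ℍ) z ≤ Real.sinh (dist (I : ℍ) z) := Real.self_le_sinh_iff.mpr hd0
  have hs2 : Real.sinh (dist (I : ℍ) z) < Real.cosh (dist (I : ℍ) z) := Real.sinh_lt_cosh _
  have hd : dist ((I : ℍ) : ℂ) (z : ℂ) ^ 2 = z.re ^ 2 + (1 - z.im) ^ 2 := by
    rw [Complex.dist_eq, ← Complex.normSq_eq_norm_sq, Complex.normSq_apply]
    simp
    ring
  have hI : (I : ℍ).im = 1 := by simp
  rw [hd, hI] at hc
  have hre : z.re ^ 2 ≤ B ^ 2 := by
    rw [← sq_abs z.re]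
    exact pow_le_pow_left₀ (abs_nonneg _) h3 2
  have him : (1 - z.im) ^ 2 ≤ A ^ 2 := by
    nlinarith
  have hfrac : (z.re ^ 2 + (1 - z.im) ^ 2) / (2 * 1 * z.im) ≤ (B ^ 2 + A ^ 2) / 2 := by
    rw [div_le_div_iff₀ (by linarith) (by norm_num)]
    nlinarith [sq_nonneg B, sq_nonneg A]
  linarith

theorem st_FORB (hCINV : ST_CINV) : ST_FORB := by
  intro Γ _ X κ hκ
  classical
  have hL : 1 < X.lam ^ 2 := by nlinarith [X.one_lt]
  have hL0 : 0 < X.lam ^ 2 := by linarith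
  refine ⟨?_, ?_⟩
  · set R : ℝ := 1 + ((κ * X.lam ^ 2) ^ 2 + (X.lam ^ 2) ^ 2) / 2 with hR
    have hfin : {g : Γ | dist (I : ℍ) (X.M g • (I : ℍ)) ≤ R}.Finite := X.disc R
    refine ⟨hfin.toFinset.filter (fun t => t ∈ Bnd X.toFuchs κ), ?_, ?_⟩
    · intro t ht
      exact (Finset.mem_filter.mp ht).2
    · intro x hx
      obtain ⟨n, hn1, hn2⟩ := exists_mem_Ico_zpow (X.M x • (I : ℍ)).im_pos hL
      have hc := hCINV X κ (-n) x
      obtain ⟨hc1, hc2, -, -, hc5⟩ := hc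
      have hmem : X.c ^ (-n) * x ∈ Bnd X.toFuchs κ := hc5.mpr hx
      have him1 : 1 ≤ (X.M (X.c ^ (-n) * x) • (I : ℍ)).im := by
        rw [hc1]
        have : (X.lam ^ 2) ^ (-n) * (X.lam ^ 2) ^ n = 1 := by
          rw [← zpow_add₀ hL0.ne']; simp
        calc (1 : ℝ) = (X.lam ^ 2) ^ (-n) * (X.lam ^ 2) ^ n := this.symm
          _ ≤ _ := mul_le_mul_of_nonneg_left hn1 (zpow_pos hL0 _).le
      have him2 : (X.M (X.c ^ (-n) * x) • (I : ℍ)).im ≤ X.lam ^ 2 := by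
        rw [hc1]
        have : (X.lam ^ 2) ^ (-n) * (X.lam ^ 2) ^ (n + 1) = X.lam ^ 2 := by
          rw [← zpow_add₀ hL0.ne']; simp
        calc _ ≤ (X.lam ^ 2) ^ (-n) * (X.lam ^ 2) ^ (n + 1) :=
              mul_le_mul_of_nonneg_left hn2.le (zpow_pos hL0 _).le
          _ = X.lam ^ 2 := this
      have hre : |(X.M (X.c ^ (-n) * x) • (I : ℍ)).re| ≤ κ * X.lam ^ 2 := by
        have h1 : |(X.M (X.c ^ (-n) * x) • (I : ℍ)).re| ≤
            κ * (X.M (X.c ^ (-n) * x) • (I : ℍ)).im := hmem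
        exact h1.trans (mul_le_mul_of_nonneg_left him2 hκ)
      refine ⟨X.c ^ (-n) * x, ?_, n, ?_⟩
      · rw [Finset.mem_filter]
        refine ⟨?_, hmem⟩
        rw [Set.Finite.mem_toFinset]
        exact forb_dist _ _ _ him1 him2 hre
      · rw [← mul_assoc, ← zpow_add]; simp
  · intro k x hk
    have hc := (hCINV X κ k x).1
    rw [hk] at hc
    have hy : (X.M x • (I : ℍ)).im ≠ 0 := (X.M x • (I : ℍ)).im_pos.ne'
    have h1 : (X.lam ^ 2) ^ k = 1 := by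
      have : (X.lam ^ 2) ^ k * (X.M x • (I : ℍ)).im = 1 * (X.M x • (I : ℍ)).im := by
        rw [one_mul]; exact hc.symm
      exact mul_right_cancel₀ hy this
    exact (zpow_eq_one_iff_right₀ hL0.le hL.ne').mp h1

end Pool.Agent.Helper12.GM
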